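import Mathlib

/-!
# A bounded finite-one degree whose 1-degrees form a dense linear order

We build a set `A` of natural numbers such that the 1-degrees contained in the bounded finite-one
degree of `A`, ordered by 1-reducibility, form a dense linear order with more than one element.

The set `A` is generic for a Mathias-like forcing. A condition is a computable labelling
`u : ℕ → ℕ` whose fibres over `0` (numbers already put into `A`) and over `1` (numbers already put
outside `A`) are infinite and whose fibres over all labels `b ≥ 2` (blocks that will be put into or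
outside `A` as a whole) have one and the same positive finite size. A condition is extended by
composing `u` with a computable relabelling.
-/

set_option autoImplicit false

namespace Pool.Agent.Results.MP_d57ee4_lc.DenseLinear

open Set

/-- `A ≤₁ B`: there is a computable injection `f` with `x ∈ A ↔ f x ∈ B` for all `x`. -/
def OneLE (A B : Set ℕ) : Prop :=
  ∃ f : ℕ → ℕ, Computable f ∧ Function.Injective f ∧ ∀ x, x ∈ A ↔ f x ∈ B

/-- `A ≤_bfin B`: there are a computable `f` and a constant `c` such that every fibre of `f` has at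
most `c` elements and `x ∈ A ↔ f x ∈ B` for all `x`. -/
def BFinLE (A B : Set ℕ) : Prop :=
  ∃ f : ℕ → ℕ, Computable f ∧ (∃ c : ℕ, ∀ y, (f ⁻¹' {y}).encard ≤ c) ∧ ∀ x, x ∈ A ↔ f x ∈ B

/-- `A ≡_bfin B`: `A` and `B` have the same bounded finite-one degree. -/
def BFinEquiv (A B : Set ℕ) : Prop := BFinLE A B ∧ BFinLE B A

/-- computable minimisation. -/
theorem computable_find {α : Type*} [Primcodable α] {p : α → ℕ → Bool} (hp : Computable₂ p)
    (f : α → ℕ) (h1 : ∀ a, p a (f a) = true) (h2 : ∀ a m, m < f a → p a m = false) :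
    Computable f := by
  have h3 : Partrec fun a => Nat.rfind (fun n => Part.some (p a n) : ℕ →. Bool) :=
    Partrec.rfind hp.partrec₂
  refine h3.of_eq_tot ?_
  intro a
  refine Nat.mem_rfind.2 ⟨?_, ?_⟩
  · simpa using h1 a
  · intro m hm
    simpa using (h2 a m hm)

theorem computable_count {α : Type*} [Primcodable α] {q : α → ℕ → Bool} (hq : Computable₂ q)
    : Computable₂ (fun (a : α) (n : ℕ) => Nat.count (fun z => q a z = true) n) := by
  have h : Computable (fun p : α × ℕ =>
      (Nat.rec (motive := fun _ => ℕ) 0 (fun m c => bif q p.1 m then c + 1 else c) p.2 : ℕ)) := by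
    refine Computable.nat_rec (σ := ℕ) (f := fun p : α × ℕ => p.2) (g := fun _ => 0)
      (h := fun (p : α × ℕ) (s : ℕ × ℕ) => bif q p.1 s.1 then s.2 + 1 else s.2) Computable.snd
      (Computable.const 0) ?_
    refine Computable.to₂ (f := fun (x : (α × ℕ) × (ℕ × ℕ)) => bif q x.1.1 x.2.1 then x.2.2 + 1 else x.2.2) ?_
    refine Computable.cond ?_ ?_ ?_
    · exact hq.comp (Computable.fst.comp Computable.fst) (Computable.fst.comp Computable.snd)
    · exact Computable.succ.comp (Computable.snd.comp Computable.snd)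
    · exact (Computable.snd.comp Computable.snd)
  refine h.of_eq ?_
  rintro ⟨a, n⟩
  dsimp only
  induction n with
  | zero => simp
  | succ n ih =>
    rw [Nat.count_succ]
    simp only [] at ih ⊢
    rw [ih]
    by_cases hh : q a n = true <;> simp [hh]

theorem computable_eq {α : Type*} [Primcodable α] {f g : α → ℕ} (hf : Computable f)
    (hg : Computable g) : Computable (fun a => decide (f a = g a)) := by
  have h : PrimrecRel (fun a b : ℕ => a = b) := Primrec.eq
  exact (Primrec₂.to_comp (h.decide)).comp hf hg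

theorem computable_count_eq {φ : ℕ → ℕ} (hφ : Computable φ) :
    Computable₂ (fun (b : ℕ) (n : ℕ) => Nat.count (fun z => φ z = b) n) := by
  have h : Computable₂ (fun (b : ℕ) (z : ℕ) => decide (φ z = b)) :=
    Computable.to₂ (f := fun p : ℕ × ℕ => decide (φ p.2 = p.1))
      (computable_eq (hφ.comp Computable.snd) Computable.fst)
  refine (computable_count h).of_eq ?_
  intro p
  simp

/-- comparison lemma -/
theorem compare {φ ψ : ℕ → ℕ} (hφ : Computable φ) (hψ : Computable ψ) (c : ℕ) (hc : 0 < c)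
    (h : ∀ x, {z | φ z = φ x}.encard ≤ c * {z | ψ z = φ x}.encard) :
    ∃ f : ℕ → ℕ, Computable f ∧ (∀ x, ψ (f x) = φ x) ∧ (∀ y, (f ⁻¹' {y}).encard ≤ c) := by
  classical
  set f : ℕ → ℕ := fun x => Nat.nth (fun y => ψ y = φ x) (Nat.count (fun z => φ z = φ x) x / c) with hf
  have key : ∀ x, ∀ hF : {y | ψ y = φ x}.Finite,
      Nat.count (fun z => φ z = φ x) x / c < hF.toFinset.card := by
    intro x hF
    have h1 := h x
    have h2 : {z | ψ z = φ x}.encard = (hF.toFinset.card : ℕ∞) := by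
      rw [← Set.encard_coe_eq_coe_finsetCard]
      simp
    rw [h2] at h1
    have h3 : ((Nat.count (fun z => φ z = φ x) x + 1 : ℕ) : ℕ∞) ≤ {z | φ z = φ x}.encard := by
      rw [Nat.count_eq_card_filter_range]
      have : ((insert x (Finset.filter (fun z => φ z = φ x) (Finset.range x)) : Finset ℕ) : Set ℕ)
          ⊆ {z | φ z = φ x} := by
        intro z hz
        simp only [Finset.coe_insert, Finset.coe_filter, Finset.mem_range, Set.mem_insert_iff,
          Set.mem_ofPred_eq] at hz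
        rcases hz with hz | hz
        · simp [hz]
        · exact hz.2
      have h4 := Set.encard_le_encard this
      rw [Set.encard_coe_eq_coe_finsetCard, Finset.card_insert_of_notMem (by simp)] at h4
      exact h4
    have h5 : ((Nat.count (fun z => φ z = φ x) x + 1 : ℕ) : ℕ∞) ≤ ((c * hF.toFinset.card : ℕ) : ℕ∞) := by
      push_cast
      exact_mod_cast h3.trans h1
    have h6 : Nat.count (fun z => φ z = φ x) x + 1 ≤ c * hF.toFinset.card := by exact_mod_cast h5
    rw [Nat.div_lt_iff_lt_mul hc]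
    rw [mul_comm]
    omega
  have hmem : ∀ x, ψ (f x) = φ x := by
    intro x
    exact Nat.nth_mem (p := fun y => ψ y = φ x) _ (key x)
  have hcount : ∀ x, Nat.count (fun y => ψ y = φ x) (f x) = Nat.count (fun z => φ z = φ x) x / c := by
    intro x
    exact Nat.count_nth (key x)
  refine ⟨f, ?_, hmem, ?_⟩
  · -- computability
    refine computable_find (p := fun x y => decide (ψ y = φ x) &&
      decide (Nat.count (fun y => ψ y = φ x) y = Nat.count (fun z => φ z = φ x) x / c)) ?_ f ?_ ?_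
    · have e1 : Computable (fun p : ℕ × ℕ => decide (ψ p.2 = φ p.1)) :=
        computable_eq (hψ.comp Computable.snd) (hφ.comp Computable.fst)
      have e2 : Computable (fun p : ℕ × ℕ => decide (Nat.count (fun y => ψ y = φ p.1) p.2 =
          Nat.count (fun z => φ z = φ p.1) p.1 / c)) := by
        refine computable_eq ?_ ?_
        · exact (computable_count_eq hψ).comp (hφ.comp Computable.fst) Computable.snd
        · have e3 : Computable₂ (fun a b : ℕ => a / b) := Primrec₂.to_comp Primrec.nat_div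
          refine e3.comp ?_ (Computable.const c)
          exact (computable_count_eq hφ).comp (hφ.comp Computable.fst) Computable.fst
      have e4 : Computable₂ (fun a b : Bool => a && b) := Primrec₂.to_comp Primrec.and
      exact (e4.comp e1 e2).to₂
    · intro x
      simp [hmem x, hcount x]
    · intro x m hm
      by_contra hcon
      simp only [Bool.not_eq_false, Bool.and_eq_true, decide_eq_true_eq] at hcon
      obtain ⟨h1, h2⟩ := hcon
      rw [← hcount x] at h2
      have : Nat.count (fun y => ψ y = φ x) m < Nat.count (fun y => ψ y = φ x) (f x) := by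
        exact Nat.count_strict_mono h1 hm
      omega
  · intro y
    have hinj : Set.InjOn (fun x => Nat.count (fun z => φ z = ψ y) x) (f ⁻¹' {y}) := by
      intro a ha b hb hab
      simp only [Set.mem_preimage, Set.mem_singleton_iff] at ha hb
      have ha' : φ a = ψ y := by rw [← hmem a, ha]
      have hb' : φ b = ψ y := by rw [← hmem b, hb]
      exact Nat.count_injective ha' hb' hab
    have hmaps : Set.MapsTo (fun x => Nat.count (fun z => φ z = ψ y) x) (f ⁻¹' {y})
        (Set.Ico (c * Nat.count (fun z => ψ z = ψ y) y) (c * Nat.count (fun z => ψ z = ψ y) y + c)) := by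
      intro a ha
      simp only [Set.mem_preimage, Set.mem_singleton_iff] at ha
      have ha' : φ a = ψ y := by rw [← hmem a, ha]
      have h1 := hcount a
      rw [ha, ha'] at h1
      simp only [Set.mem_Ico]
      rw [h1]
      constructor
      · exact Nat.mul_div_le _ _
      · exact Nat.lt_mul_div_succ _ hc
    refine (Set.encard_le_encard_of_injOn hmaps hinj).trans ?_
    have : (Set.Ico (c * Nat.count (fun z => ψ z = ψ y) y) (c * Nat.count (fun z => ψ z = ψ y) y + c)).encard = c := by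
      rw [← Finset.coe_Ico, Set.encard_coe_eq_coe_finsetCard]
      simp
    rw [this]

theorem computable_le {α : Type*} [Primcodable α] {f g : α → ℕ} (hf : Computable f)
    (hg : Computable g) : Computable (fun a => decide (f a ≤ g a)) := by
  have h : PrimrecRel (fun a b : ℕ => a ≤ b) := Primrec.nat_le
  exact (Primrec₂.to_comp (h.decide)).comp hf hg

theorem computable_ite {α : Type*} [Primcodable α] {c : α → Prop} [DecidablePred c]
    (hc : Computable (fun a => decide (c a))) {f g : α → ℕ} (hf : Computable f)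
    (hg : Computable g) : Computable (fun a => if c a then f a else g a) := by
  refine (Computable.cond hc hf hg).of_eq ?_
  intro a
  by_cases h : c a <;> simp [h]

/-- fibre counting -/
theorem fiber_mul (g : ℕ → ℕ) (k : ℕ) (S : Set ℕ) (hS : S.Finite)
    (h : ∀ a ∈ S, {x | g x = a}.encard = k) : {x | g x ∈ S}.encard = S.encard * k := by
  induction S, hS using Set.Finite.induction_on with
  | empty => simp
  | @insert a S ha hS ih =>
    have e : {x | g x ∈ insert a S} = {x | g x = a} ∪ {x | g x ∈ S} := by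
      ext x; simp
    rw [e, Set.encard_union_eq, h a (Set.mem_insert _ _), ih (fun b hb => h b (Set.mem_insert_of_mem _ hb)),
      Set.encard_insert_of_notMem ha, add_mul, one_mul, add_comm]
    rw [Set.disjoint_left]
    intro x hx hx'
    simp only [Set.mem_ofPred_eq] at hx hx'
    rw [hx] at hx'
    exact ha hx'

theorem fiber_le (g : ℕ → ℕ) (k : ℕ) (S : Set ℕ) (hS : S.Finite)
    (h : ∀ a ∈ S, {x | g x = a}.encard ≤ k) : {x | g x ∈ S}.encard ≤ S.encard * k := by
  induction S, hS using Set.Finite.induction_on with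
  | empty => simp
  | @insert a S ha hS ih =>
    have e : {x | g x ∈ insert a S} = {x | g x = a} ∪ {x | g x ∈ S} := by
      ext x; simp
    rw [e]
    refine (Set.encard_union_le _ _).trans ?_
    rw [Set.encard_insert_of_notMem ha, add_mul, one_mul, add_comm]
    gcongr
    · exact ih (fun b hb => h b (Set.mem_insert_of_mem _ hb))
    · exact h a (Set.mem_insert _ _)

/-- thinning lemma -/
theorem thin {P : ℕ → ℕ → Bool} (hP : Computable₂ P) (hinf : ∀ m, ∃ b, m < b ∧ ∃ s, P b s = true) :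
    ∃ t : ℕ → ℕ, Computable t ∧ t 0 = 0 ∧ t 1 = 1 ∧ (∀ b, 2 ≤ b → {a | t a = b}.encard = (1 : ℕ)) ∧
      ∀ a, 2 ≤ t a → 2 ≤ a ∧ ∃ s, P a s = true := by
  classical
  have h1 : ∀ m, ∃ n : ℕ, m < n.unpair.1 ∧ P n.unpair.1 n.unpair.2 = true := by
    intro m
    obtain ⟨b, hb, s, hs⟩ := hinf m
    exact ⟨Nat.pair b s, by simpa using hb, by simpa using hs⟩
  set F0 : ℕ → ℕ := fun m => Nat.find (h1 m) with hF0
  have hF0c : Computable F0 := by
    refine computable_find (p := fun m n => decide (m + 1 ≤ n.unpair.1) && P n.unpair.1 n.unpair.2) ?_ F0 ?_ ?_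
    · have e4 : Computable₂ (fun a b : Bool => a && b) := Primrec₂.to_comp Primrec.and
      have e5 : Computable (fun p : ℕ × ℕ => decide (p.1 + 1 ≤ p.2.unpair.1)) :=
        computable_le (f := fun p : ℕ × ℕ => p.1 + 1) (g := fun p : ℕ × ℕ => p.2.unpair.1)
          (Computable.succ.comp Computable.fst)
          (Computable.fst.comp (Computable.unpair.comp Computable.snd))
      have e6 : Computable (fun p : ℕ × ℕ => P p.2.unpair.1 p.2.unpair.2) :=
        hP.comp (g := fun p : ℕ × ℕ => p.2.unpair.1) (h := fun p : ℕ × ℕ => p.2.unpair.2)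
          (Computable.fst.comp (Computable.unpair.comp Computable.snd))
          (Computable.snd.comp (Computable.unpair.comp Computable.snd))
      have e7 : Computable (fun p : ℕ × ℕ => decide (p.1 + 1 ≤ p.2.unpair.1) && P p.2.unpair.1 p.2.unpair.2) :=
        e4.comp e5 e6
      exact e7.to₂
    · intro m
      have := Nat.find_spec (h1 m)
      simp only [Bool.and_eq_true, decide_eq_true_eq]
      exact this
    · intro m n hn
      have := Nat.find_min (h1 m) hn
      by_contra hcon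
      simp only [Bool.not_eq_false, Bool.and_eq_true, decide_eq_true_eq] at hcon
      exact this hcon
  set F : ℕ → ℕ := fun m => (F0 m).unpair.1 with hF
  have hFc : Computable F := Computable.fst.comp (Computable.unpair.comp hF0c)
  have hFlt : ∀ m, m < F m := fun m => (Nat.find_spec (h1 m)).1
  have hFP : ∀ m, ∃ s, P (F m) s = true := fun m => ⟨_, (Nat.find_spec (h1 m)).2⟩
  set z : ℕ → ℕ := fun j => Nat.rec (F 1) (fun _ y => F y) j with hz
  have hz0 : z 0 = F 1 := rfl
  have hzs : ∀ j, z (j + 1) = F (z j) := fun j => rfl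
  have hzc : Computable z := by
    refine Computable.nat_rec (f := fun j : ℕ => j) (g := fun _ => F 1)
      (h := fun (_ : ℕ) (s : ℕ × ℕ) => F s.2) Computable.id (Computable.const _) ?_
    exact (hFc.comp (Computable.snd.comp Computable.snd)).to₂
  have hzmono : StrictMono z := strictMono_nat_of_lt_succ (fun j => by rw [hzs]; exact hFlt _)
  have hz2 : ∀ j, 2 ≤ z j := by
    intro j
    have : z 0 ≤ z j := hzmono.monotone (Nat.zero_le j)
    have h3 : 1 < z 0 := hFlt 1
    omega
  have hzP : ∀ j, ∃ s, P (z j) s = true := by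
    intro j
    cases j with
    | zero => exact hFP 1
    | succ j => rw [hzs]; exact hFP _
  have hJ : ∀ a, ∃ j, a ≤ z j := fun a => ⟨a, hzmono.le_apply⟩
  set J : ℕ → ℕ := fun a => Nat.find (hJ a) with hJdef
  have hJc : Computable J := by
    refine computable_find (p := fun a j => decide (a ≤ z j)) ?_ J ?_ ?_
    · exact (computable_le Computable.fst (hzc.comp Computable.snd)).to₂
    · intro a; simpa using Nat.find_spec (hJ a)
    · intro a m hm; simpa using Nat.find_min (hJ a) hm
  have hJz : ∀ j, J (z j) = j := by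
    intro j
    apply le_antisymm
    · exact Nat.find_min' (hJ (z j)) le_rfl
    · have := Nat.find_spec (hJ (z j))
      exact (hzmono.le_iff_le).1 this
  refine ⟨fun a => if a = 1 then 1 else if z (J a) = a then J a + 2 else 0, ?_, ?_, ?_, ?_, ?_⟩
  · refine computable_ite (computable_eq Computable.id (Computable.const 1)) (Computable.const 1) ?_
    refine computable_ite (computable_eq (hzc.comp hJc) Computable.id) ?_ (Computable.const 0)
    exact (Computable.succ.comp (Computable.succ.comp hJc))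
  · have : z (J 0) ≠ 0 := by have := hz2 (J 0); omega
    simp [this]
  · simp
  · intro b hb
    have : {a | (if a = 1 then 1 else if z (J a) = a then J a + 2 else 0) = b} = {z (b - 2)} := by
      ext a
      simp only [Set.mem_ofPred_eq, Set.mem_singleton_iff]
      constructor
      · intro h
        split_ifs at h with h1 h2
        · omega
        · have : J a = b - 2 := by omega
          rw [← this, h2]
        · omega
      · intro h
        have h3 : a ≠ 1 := by have := hz2 (b - 2); omega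
        have h4 : J a = b - 2 := by rw [h, hJz]
        rw [if_neg h3, h4, if_pos h.symm]
        omega
    rw [this]
    simp
  · intro a ha
    simp only at ha
    split_ifs at ha with h1 h2
    · omega
    · refine ⟨?_, ?_⟩
      · rw [← h2]; exact hz2 _
      · rw [← h2]; exact hzP _
    · omega

/-- A condition: a computable labelling. -/
structure Cond where
  u : ℕ → ℕ
  comp : Computable u
  inf0 : {x | u x = 0}.Infinite
  inf1 : {x | u x = 1}.Infinite
  N : ℕ
  Npos : 0 < N
  fib : ∀ b, 2 ≤ b → {x | u x = b}.encard = N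

structure ExtBy (t : ℕ → ℕ) (d : ℕ) (p q : Cond) : Prop where
  t0 : t 0 = 0
  t1 : t 1 = 1
  dpos : 0 < d
  fib : ∀ b, 2 ≤ b → {a | t a = b}.encard = d
  eq : ∀ x, q.u x = t (p.u x)

theorem ExtBy.two_le {t : ℕ → ℕ} {d : ℕ} {p q : Cond} (h : ExtBy t d p q) {a : ℕ} (ha : 2 ≤ t a) :
    2 ≤ a := by
  rcases a with _ | _ | a
  · rw [h.t0] at ha; omega
  · rw [h.t1] at ha; omega
  · omega

theorem ExtBy.refl (p : Cond) : ExtBy id 1 p p :=
  ⟨rfl, rfl, one_pos, fun b _ => by simp, fun _ => rfl⟩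

theorem mul_fib {t : ℕ → ℕ} {d : ℕ} (g : ℕ → ℕ) {k : ℕ} (t0 : t 0 = 0) (t1 : t 1 = 1)
    (hfib : ∀ b, 2 ≤ b → {a | t a = b}.encard = d) 
    (hg : ∀ a, 2 ≤ a → {x | g x = a}.encard = k) {b : ℕ} (hb : 2 ≤ b) :
    {x | t (g x) = b}.encard = ((d * k : ℕ) : ℕ∞) := by
  have h1 := hfib b hb
  have hfin : {a | t a = b}.Finite := Set.finite_of_encard_eq_coe h1
  have h2 := fiber_mul g k {a | t a = b} hfin (by
    intro a ha
    apply hg
    simp only [Set.mem_ofPred_eq] at ha
    rcases a with _ | _ | a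
    · rw [t0] at ha; omega
    · rw [t1] at ha; omega
    · omega)
  rw [h1] at h2
  simpa using h2

theorem ExtBy.trans {t t' : ℕ → ℕ} {d d' : ℕ} {p q r : Cond} (h : ExtBy t d p q)
    (h' : ExtBy t' d' q r) : ExtBy (fun a => t' (t a)) (d' * d) p r where
  t0 := by simp [h.t0, h'.t0]
  t1 := by simp [h.t1, h'.t1]
  dpos := Nat.mul_pos h'.dpos h.dpos
  fib := fun b hb => mul_fib t h'.t0 h'.t1 h'.fib h.fib hb
  eq := fun x => by rw [h'.eq, h.eq]

/-- the persistence of multiplicities -/
theorem ExtBy.mult {t : ℕ → ℕ} {d : ℕ} {p q : Cond} (h : ExtBy t d p q) (g : ℕ → ℕ) {k : ℕ}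
    (hg : ∀ b, 2 ≤ b → {x | p.u (g x) = b}.encard = k) :
    ∀ b, 2 ≤ b → {x | q.u (g x) = b}.encard = ((d * k : ℕ) : ℕ∞) := by
  intro b hb
  have := mul_fib (fun x => p.u (g x)) h.t0 h.t1 h.fib hg hb
  simpa only [h.eq] using this

def Cond.extend (p : Cond) (t : ℕ → ℕ) (ht : Computable t) (d : ℕ) (t0 : t 0 = 0) (t1 : t 1 = 1)
    (dpos : 0 < d) (hfib : ∀ b, 2 ≤ b → {a | t a = b}.encard = d) : Cond where
  u := fun x => t (p.u x)
  comp := ht.comp p.comp
  inf0 := p.inf0.mono (by intro x hx; simp only [Set.mem_ofPred_eq] at hx ⊢; rw [hx, t0])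
  inf1 := p.inf1.mono (by intro x hx; simp only [Set.mem_ofPred_eq] at hx ⊢; rw [hx, t1])
  N := d * p.N
  Npos := Nat.mul_pos dpos p.Npos
  fib := fun b hb => mul_fib p.u t0 t1 hfib p.fib hb

theorem exists_ext (p : Cond) (t : ℕ → ℕ) (ht : Computable t) (d : ℕ) (t0 : t 0 = 0) (t1 : t 1 = 1)
    (dpos : 0 < d) (hfib : ∀ b, 2 ≤ b → {a | t a = b}.encard = d) :
    ∃ q : Cond, ExtBy t d p q ∧ ∀ x, q.u x = t (p.u x) :=
  ⟨p.extend t ht d t0 t1 dpos hfib, ⟨t0, t1, dpos, hfib, fun _ => rfl⟩, fun _ => rfl⟩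


/-- the base labelling with fibre size `K`. -/
def lab (K : ℕ) (x : ℕ) : ℕ := if x % 3 = 0 then 0 else if x % 3 = 1 then 1 else 2 + (x / 3) / K

theorem lab_comp (K : ℕ) : Computable (lab K) := by
  have hdiv : Computable₂ (fun a b : ℕ => a / b) := Primrec₂.to_comp Primrec.nat_div
  have hmod : Computable₂ (fun a b : ℕ => a % b) := Primrec₂.to_comp Primrec.nat_mod
  have hadd : Computable₂ (fun a b : ℕ => a + b) := Primrec₂.to_comp Primrec.nat_add
  have h3 : Computable (fun x : ℕ => x % 3) := hmod.comp Computable.id (Computable.const 3)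
  refine computable_ite (computable_eq h3 (Computable.const 0)) (Computable.const 0) ?_
  refine computable_ite (computable_eq h3 (Computable.const 1)) (Computable.const 1) ?_
  exact hadd.comp (Computable.const 2) (hdiv.comp (hdiv.comp Computable.id (Computable.const 3)) (Computable.const K))

theorem lab_inf0 (K : ℕ) : {x | lab K x = 0}.Infinite := by
  refine Set.infinite_of_injective_forall_mem (f := fun n : ℕ => 3 * n) ?_ ?_
  · intro a b h; simp only at h; omega
  · intro n
    have : 3 * n % 3 = 0 := by omega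
    simp [lab, this]

theorem lab_inf1 (K : ℕ) : {x | lab K x = 1}.Infinite := by
  refine Set.infinite_of_injective_forall_mem (f := fun n : ℕ => 3 * n + 1) ?_ ?_
  · intro a b h; simp only at h; omega
  · intro n
    have : (3 * n + 1) % 3 = 1 := by omega
    simp [lab, this]

theorem lab_fib (K : ℕ) (hK : 0 < K) (b : ℕ) (hb : 2 ≤ b) : {x | lab K x = b}.encard = K := by
  have : {x | lab K x = b} = (fun i => 3 * ((b - 2) * K + i) + 2) '' (Finset.range K : Set ℕ) := by
    ext x
    simp only [Set.mem_ofPred_eq, Finset.coe_range, Set.mem_image, Set.mem_Iio]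
    constructor
    · intro h
      unfold lab at h
      split_ifs at h with h1 h2
      · omega
      · omega
      · have h3 : x % 3 = 2 := by omega
        have h4 : x / 3 / K = b - 2 := by omega
        refine ⟨x / 3 % K, Nat.mod_lt _ hK, ?_⟩
        rw [← h4, mul_comm (x / 3 / K) K, Nat.div_add_mod]
        omega
    · rintro ⟨i, hi, rfl⟩
      have h1 : (3 * ((b - 2) * K + i) + 2) % 3 = 2 := by omega
      have h2 : (3 * ((b - 2) * K + i) + 2) / 3 = (b - 2) * K + i := by omega
      have h3 : ((b - 2) * K + i) / K = b - 2 := by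
        rw [mul_comm, Nat.mul_add_div hK, Nat.div_eq_of_lt hi]; rfl
      unfold lab
      rw [h1, h2, h3]
      simp
      omega
  rw [this, Set.InjOn.encard_image, Set.encard_coe_eq_coe_finsetCard, Finset.card_range]
  intro a _ b' _ h
  simp only at h
  omega

def base : Cond where
  u := lab 1
  comp := lab_comp 1
  inf0 := lab_inf0 1
  inf1 := lab_inf1 1
  N := 1
  Npos := one_pos
  fib := lab_fib 1 one_pos

/-- doubling step -/
theorem step_D (p : Cond) : ∃ (q : Cond) (t : ℕ → ℕ), ExtBy t 2 p q := by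
  have hdiv : Computable₂ (fun a b : ℕ => a / b) := Primrec₂.to_comp Primrec.nat_div
  have hadd : Computable₂ (fun a b : ℕ => a + b) := Primrec₂.to_comp Primrec.nat_add
  have ht : Computable (fun a : ℕ => if a ≤ 1 then a else 1 + a / 2) := by
    refine computable_ite (computable_le Computable.id (Computable.const 1)) Computable.id ?_
    exact hadd.comp (Computable.const 1) (hdiv.comp Computable.id (Computable.const 2))
  obtain ⟨q, hq, _⟩ := exists_ext p _ ht 2 (by simp) (by simp) (by norm_num) (by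
    intro b hb
    have : {a | (if a ≤ 1 then a else 1 + a / 2) = b} = ((({2 * (b - 1), 2 * (b - 1) + 1} : Finset ℕ)) : Set ℕ) := by
      ext a
      simp only [Set.mem_ofPred_eq, Finset.coe_insert, Finset.coe_singleton, Set.mem_insert_iff,
        Set.mem_singleton_iff]
      constructor
      · intro h
        split_ifs at h with h1
        · omega
        · omega
      · intro h
        have h2 : ¬ (a ≤ 1) := by omega
        rw [if_neg h2]
        omega
    rw [this, Set.encard_coe_eq_coe_finsetCard]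
    rw [Finset.card_pair (by omega)])
  exact ⟨q, _, hq⟩

/-- rigidity step -/
theorem step_R (p : Cond) (G H : ℕ → ℕ) : ∃ (q : Cond) (t : ℕ → ℕ) (d : ℕ), ExtBy t d p q ∧
    ((∃ x, (q.u (G x) = 0 ∧ q.u (H x) = 1) ∨ (q.u (G x) = 1 ∧ q.u (H x) = 0)) ∨
      ∀ x, 2 ≤ q.u (G x) → q.u (H x) = q.u (G x)) := by
  by_cases hgood : ∀ x, 2 ≤ p.u (G x) → p.u (H x) = p.u (G x)
  · exact ⟨p, id, 1, ExtBy.refl p, Or.inr hgood⟩
  push Not at hgood
  obtain ⟨x, hx1, hx2⟩ := hgood
  set b := p.u (G x) with hb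
  set b' := p.u (H x) with hb'
  set M := max b b' + 1 with hM
  set v : ℕ := if b' = 1 then 0 else 1 with hv
  have hsub : Computable₂ (fun a b : ℕ => a - b) := Primrec₂.to_comp Primrec.nat_sub
  have hadd : Computable₂ (fun a b : ℕ => a + b) := Primrec₂.to_comp Primrec.nat_add
  have hM1 : b < M := by omega
  have hM2 : b' < M := by omega
  set t : ℕ → ℕ := fun a => if a ≤ 1 then a else if a = b then v else if M ≤ a then a - M + 2 else 0 with ht
  have htc : Computable t := by
    refine computable_ite (computable_le Computable.id (Computable.const 1)) Computable.id ?_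
    refine computable_ite (computable_eq Computable.id (Computable.const b)) (Computable.const v) ?_
    refine computable_ite (computable_le (Computable.const M) Computable.id) ?_ (Computable.const 0)
    exact hadd.comp (hsub.comp Computable.id (Computable.const M)) (Computable.const 2)
  have hv1 : v ≤ 1 := by rw [hv]; split_ifs <;> omega
  obtain ⟨q, hq, hqu⟩ := exists_ext p t htc 1 (by simp [ht]) (by simp [ht]) one_pos (by
    intro c hc
    have : {a | t a = c} = {c - 2 + M} := by
      ext a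
      simp only [ht, Set.mem_ofPred_eq, Set.mem_singleton_iff]
      constructor
      · intro h
        split_ifs at h with h1 h2 h3
        · omega
        · omega
        · omega
        · omega
      · intro h
        have e1 : ¬ (a ≤ 1) := by omega
        have e2 : ¬ (a = b) := by omega
        have e3 : M ≤ a := by omega
        rw [if_neg e1, if_neg e2, if_pos e3]
        omega
    rw [this]
    simp)
  refine ⟨q, t, 1, hq, Or.inl ⟨x, ?_⟩⟩
  rw [hqu, hqu, ← hb, ← hb']
  have tb : t b = v := by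
    simp only [ht]
    rw [if_neg (by omega)]
    simp
  rw [tb]
  rcases Nat.lt_or_ge b' 2 with h | h
  · have h' : b' = 0 ∨ b' = 1 := by omega
    rcases h' with h' | h'
    · right
      rw [h', hv, h']
      simp [ht]
    · left
      rw [h', hv, h']
      simp [ht]
  · right
    have e1 : ¬ (b' ≤ 1) := by omega
    have e2 : ¬ (b' = b) := hx2
    have e3 : ¬ (M ≤ b') := by omega
    have e4 : ¬ (b' = 1) := by omega
    constructor
    · rw [hv, if_neg e4]
    · simp only [ht]
      rw [if_neg e1, if_neg e2, if_neg e3]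

/-- multiplicity step -/
theorem step_M (p : Cond) (g : ℕ → ℕ) (hg : Computable g) (c : ℕ) (hc : ∀ y, (g ⁻¹' {y}).encard ≤ c) :
    ∃ (q : Cond) (t : ℕ → ℕ) (d : ℕ), ExtBy t d p q ∧
      ∃ k : ℕ, ∀ b, 2 ≤ b → {x | q.u (g x) = b}.encard = k := by
  classical
  have hbound : ∀ b, 2 ≤ b → {x | p.u (g x) = b}.encard ≤ ((p.N * c : ℕ) : ℕ∞) := by
    intro b hb
    have h1 := p.fib b hb
    have hfin : {a | p.u a = b}.Finite := Set.finite_of_encard_eq_coe h1
    have h2 := fiber_le g c {a | p.u a = b} hfin (fun a _ => by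
      have := hc a
      simpa [Set.preimage] using this)
    rw [h1] at h2
    simpa using h2
  -- the natural number valued multiplicity
  set w : ℕ → ℕ := fun b => {x | p.u (g x) = b}.ncard with hw
  have hfin : ∀ b, 2 ≤ b → {x | p.u (g x) = b}.Finite := by
    intro b hb
    exact Set.finite_of_encard_le_coe (hbound b hb)
  have hwe : ∀ b, 2 ≤ b → {x | p.u (g x) = b}.encard = w b := by
    intro b hb
    exact ((hfin b hb).cast_ncard_eq).symm
  have hwb : ∀ b, 2 ≤ b → w b ≤ p.N * c := by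
    intro b hb
    have := hbound b hb
    rw [hwe b hb] at this
    exact_mod_cast this
  -- the largest value attained infinitely often
  set Q : ℕ → Prop := fun v => ∀ m, ∃ b, m < b ∧ 2 ≤ b ∧ v ≤ w b with hQ
  have hQ0 : Q 0 := fun m => ⟨m + 2, by omega, by omega, by omega⟩
  set v := Nat.findGreatest Q (p.N * c) with hv
  have hQv : Q v := Nat.findGreatest_spec (P := Q) (Nat.zero_le _) hQ0
  have hQv1 : ¬ Q (v + 1) := by
    intro h
    by_cases hle : v + 1 ≤ p.N * c
    · have := Nat.le_findGreatest hle h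
      omega
    · obtain ⟨b, _, hb2, hb3⟩ := h 0
      have := hwb b hb2
      omega
  simp only [hQ] at hQv1
  push Not at hQv1
  obtain ⟨M, hM⟩ := hQv1
  set P : ℕ → ℕ → Bool := fun b s => decide (M + 3 ≤ b) &&
    decide (v ≤ Nat.count (fun z => p.u (g z) = b) s) with hP
  have hPc : Computable₂ P := by
    have e4 : Computable₂ (fun a b : Bool => a && b) := Primrec₂.to_comp Primrec.and
    have e5 : Computable (fun x : ℕ × ℕ => decide (M + 3 ≤ x.1)) :=
      computable_le (f := fun _ : ℕ × ℕ => M + 3) (g := fun x : ℕ × ℕ => x.1) (Computable.const _)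
        Computable.fst
    have e6 : Computable (fun x : ℕ × ℕ => Nat.count (fun z => p.u (g z) = x.1) x.2) :=
      (computable_count_eq (p.comp.comp hg))
    have e7 : Computable (fun x : ℕ × ℕ => decide (v ≤ Nat.count (fun z => p.u (g z) = x.1) x.2)) :=
      computable_le (f := fun _ : ℕ × ℕ => v) (Computable.const _) e6
    have e8 : Computable (fun x : ℕ × ℕ => decide (M + 3 ≤ x.1) &&
      decide (v ≤ Nat.count (fun z => p.u (g z) = x.1) x.2)) := e4.comp e5 e7
    exact e8.to₂
  have hPinf : ∀ m, ∃ b, m < b ∧ ∃ s, P b s = true := by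
    intro m
    obtain ⟨b, hb1, hb2, hb3⟩ := hQv (max m (M + 3))
    refine ⟨b, by omega, ?_⟩
    obtain ⟨B, hB⟩ := (hfin b hb2).bddAbove
    refine ⟨B + 1, ?_⟩
    simp only [hP, Bool.and_eq_true, decide_eq_true_eq]
    refine ⟨by omega, hb3.trans ?_⟩
    rw [Nat.count_eq_card_filter_range, hw]
    simp only
    rw [← Set.ncard_coe_finset]
    refine Set.ncard_le_ncard ?_ (Finset.finite_toSet _)
    intro z hz
    have := hB hz
    simp only [Set.mem_ofPred_eq] at hz
    simp only [Finset.coe_filter, Finset.mem_range, Set.mem_ofPred_eq]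
    exact ⟨by omega, hz⟩
  obtain ⟨t, htc, t0, t1, hfib, htP⟩ := thin hPc hPinf
  obtain ⟨q, hq, hqu⟩ := exists_ext p t htc 1 t0 t1 one_pos hfib
  refine ⟨q, t, 1, hq, v, ?_⟩
  intro b hb
  obtain ⟨a, ha⟩ := Set.encard_eq_one.1 (by simpa using hfib b hb)
  have hta : t a = b := by
    have : a ∈ {a | t a = b} := by rw [ha]; simp
    simpa using this
  obtain ⟨ha2, s, hs⟩ := htP a (by omega)
  simp only [hP, Bool.and_eq_true, decide_eq_true_eq] at hs
  have hset : {x | q.u (g x) = b} = {x | p.u (g x) = a} := by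
    ext x
    simp only [Set.mem_ofPred_eq, hqu]
    constructor
    · intro h
      have : p.u (g x) ∈ {a | t a = b} := h
      rw [ha] at this
      simpa using this
    · intro h
      rw [h, hta]
  rw [hset, hwe a ha2]
  have h1 : w a < v + 1 := hM a (by omega) ha2
  have h2 : v ≤ w a := by
    refine hs.2.trans ?_
    rw [Nat.count_eq_card_filter_range, hw]
    simp only
    rw [← Set.ncard_coe_finset]
    refine Set.ncard_le_ncard ?_ (hfin a ha2)
    intro z hz
    simp only [Finset.coe_filter, Finset.mem_range, Set.mem_ofPred_eq] at hz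
    exact hz.2
  have : w a = v := by omega
  rw [this]


/-- the combined step -/
theorem step (p : Cond) (G H : ℕ → ℕ) (hG : Computable G) :
    ∃ (q : Cond) (t : ℕ → ℕ) (d : ℕ), ExtBy t d p q ∧ 2 ≤ d ∧
      ((∃ c : ℕ, ∀ y, (G ⁻¹' {y}).encard ≤ c) → ∃ k : ℕ, ∀ b, 2 ≤ b → {x | q.u (G x) = b}.encard = k) ∧
      ((∃ x, (q.u (G x) = 0 ∧ q.u (H x) = 1) ∨ (q.u (G x) = 1 ∧ q.u (H x) = 0)) ∨
        ∀ x, 2 ≤ q.u (G x) → q.u (H x) = q.u (G x)) := by
  have h1 : ∃ (q : Cond) (t : ℕ → ℕ) (d : ℕ), ExtBy t d p q ∧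
      ((∃ c : ℕ, ∀ y, (G ⁻¹' {y}).encard ≤ c) →
        ∃ k : ℕ, ∀ b, 2 ≤ b → {x | q.u (G x) = b}.encard = k) := by
    by_cases hc : ∃ c : ℕ, ∀ y, (G ⁻¹' {y}).encard ≤ c
    · obtain ⟨c, hc⟩ := hc
      obtain ⟨q, t, d, h, k, hk⟩ := step_M p G hG c hc
      exact ⟨q, t, d, h, fun _ => ⟨k, hk⟩⟩
    · exact ⟨p, id, 1, ExtBy.refl p, fun h => absurd h hc⟩
  obtain ⟨q1, t1, d1, e1, m1⟩ := h1
  obtain ⟨q2, t2, d2, e2, r2⟩ := step_R q1 G H
  obtain ⟨q3, t3, e3⟩ := step_D q2
  refine ⟨q3, _, _, (e1.trans e2).trans e3, ?_, ?_, ?_⟩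
  · have := e1.dpos
    have := e2.dpos
    nlinarith [Nat.mul_pos e2.dpos e1.dpos]
  · intro hc
    obtain ⟨k, hk⟩ := m1 hc
    exact ⟨_, e3.mult G (e2.mult G hk)⟩
  · rcases r2 with ⟨x, hx⟩ | h
    · left
      refine ⟨x, ?_⟩
      rw [e3.eq, e3.eq]
      rcases hx with ⟨hx1, hx2⟩ | ⟨hx1, hx2⟩
      · left; rw [hx1, hx2]; exact ⟨e3.t0, e3.t1⟩
      · right; rw [hx1, hx2]; exact ⟨e3.t1, e3.t0⟩
    · right
      intro x hx
      rw [e3.eq] at hx
      rw [e3.eq, e3.eq, h x (e3.two_le hx)]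

theorem countable_computable : Countable {f : ℕ → ℕ // Computable f} := by
  have h : ∀ f : {f : ℕ → ℕ // Computable f}, ∃ c : Nat.Partrec.Code, c.eval = (f.1 : ℕ →. ℕ) := by
    intro f
    have := f.2
    exact Nat.Partrec.Code.exists_code.1 (Partrec.nat_iff.1 this)
  choose F hF using h
  refine Function.Injective.countable (f := F) ?_
  intro f g hfg
  have h1 : (f.1 : ℕ →. ℕ) = (g.1 : ℕ →. ℕ) := by rw [← hF f, ← hF g, hfg]
  apply Subtype.ext
  funext n
  have := congrFun h1 n
  simpa using this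

theorem exists_seq : ∃ (p : ℕ → Cond), (∀ n, ∃ (t : ℕ → ℕ) (d : ℕ), ExtBy t d (p n) (p (n + 1)) ∧ 2 ≤ d) ∧
    (∀ G H : ℕ → ℕ, Computable G → Computable H → ∃ n, 
      ((∃ c : ℕ, ∀ y, (G ⁻¹' {y}).encard ≤ c) →
        ∃ k : ℕ, ∀ b, 2 ≤ b → {x | (p n).u (G x) = b}.encard = k) ∧
      ((∃ x, ((p n).u (G x) = 0 ∧ (p n).u (H x) = 1) ∨ ((p n).u (G x) = 1 ∧ (p n).u (H x) = 0)) ∨
        ∀ x, 2 ≤ (p n).u (G x) → (p n).u (H x) = (p n).u (G x))) := by
  classical
  have := countable_computable
  have : Nonempty {f : ℕ → ℕ // Computable f} := ⟨⟨id, Computable.id⟩⟩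
  obtain ⟨E, hE⟩ := exists_surjective_nat ({f : ℕ → ℕ // Computable f} × {f : ℕ → ℕ // Computable f})
  choose Q T D h1 h2 h3 h4 using fun (p : Cond) (GH : {f : ℕ → ℕ // Computable f} × {f : ℕ → ℕ // Computable f}) =>
    step p GH.1.1 GH.2.1 GH.1.2
  let p : ℕ → Cond := fun n => Nat.rec base (fun n q => Q q (E n)) n
  have hp : ∀ n, p (n + 1) = Q (p n) (E n) := fun n => rfl
  refine ⟨p, ?_, ?_⟩
  · intro n
    rw [hp]
    exact ⟨_, _, h1 (p n) (E n), h2 (p n) (E n)⟩
  · intro G H hG hH
    obtain ⟨n, hn⟩ := hE (⟨G, hG⟩, ⟨H, hH⟩)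
    refine ⟨n + 1, ?_⟩
    rw [hp]
    have a3 := h3 (p n) (E n)
    have a4 := h4 (p n) (E n)
    rw [hn] at a3 a4
    rw [hn]
    exact ⟨a3, a4⟩

/-- monotonicity -/
theorem ext_le {p : ℕ → Cond} (hp : ∀ n, ∃ (t : ℕ → ℕ) (d : ℕ), ExtBy t d (p n) (p (n + 1)) ∧ 2 ≤ d) 
    {n m : ℕ} (h : n ≤ m) : ∃ (t : ℕ → ℕ) (d : ℕ), ExtBy t d (p n) (p m) := by
  induction m, h using Nat.le_induction with
  | base => exact ⟨_, _, ExtBy.refl _⟩
  | succ m hm ih =>
    obtain ⟨t, d, h⟩ := ih
    obtain ⟨t', d', h', _⟩ := hp m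
    exact ⟨_, _, h.trans h'⟩

/-- `B` is represented by `φ` over the condition `p` -/
structure Rep (A : Set ℕ) (p : Cond) (B : Set ℕ) (g : ℕ → ℕ) (k : ℕ) : Prop where
  comp : Computable g
  mem : ∀ x, x ∈ B ↔ g x ∈ A
  inf0 : {x | p.u (g x) = 0}.Infinite
  inf1 : {x | p.u (g x) = 1}.Infinite
  kpos : 0 < k
  fib : ∀ b, 2 ≤ b → {x | p.u (g x) = b}.encard = k

theorem Rep.ext {A B : Set ℕ} {p q : Cond} {g : ℕ → ℕ} {k : ℕ} (h : Rep A p B g k) {t : ℕ → ℕ} {d : ℕ}
    (e : ExtBy t d p q) : Rep A q B g (d * k) where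
  comp := h.comp
  mem := h.mem
  inf0 := h.inf0.mono (by intro x hx; simp only [Set.mem_ofPred_eq] at hx ⊢; rw [e.eq, hx, e.t0])
  inf1 := h.inf1.mono (by intro x hx; simp only [Set.mem_ofPred_eq] at hx ⊢; rw [e.eq, hx, e.t1])
  kpos := Nat.mul_pos e.dpos h.kpos
  fib := e.mult g h.fib

theorem Rep.le {A B C : Set ℕ} {p : Cond} {g g' : ℕ → ℕ} {k k' : ℕ} (h : Rep A p B g k)
    (h' : Rep A p C g' k') (hkk : k ≤ k') (hA : ∀ y y', p.u y = p.u y' → (y ∈ A ↔ y' ∈ A)) :
    OneLE B C := by
  obtain ⟨f, hf, hf1, hf2⟩ := compare (p.comp.comp h.comp) (p.comp.comp h'.comp) 1 one_pos (by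
    intro x
    rw [Nat.cast_one, one_mul]
    rcases Nat.lt_or_ge (p.u (g x)) 2 with hx | hx
    · have hx' : p.u (g x) = 0 ∨ p.u (g x) = 1 := by omega
      rcases hx' with hx' | hx'
      · rw [hx', h'.inf0.encard_eq]; exact le_top
      · rw [hx', h'.inf1.encard_eq]; exact le_top
    · rw [h.fib _ hx, h'.fib _ hx]
      exact_mod_cast hkk)
  refine ⟨f, hf, ?_, ?_⟩
  · intro a b hab
    have := hf2 (f a)
    rw [Nat.cast_one, Set.encard_le_one_iff] at this
    exact this a b (by simp) (by simp [hab])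
  · intro x
    rw [h.mem, h'.mem]
    exact hA _ _ (hf1 x).symm


/-- the generic set -/
def gen (p : ℕ → Cond) : Set ℕ := {y | ∃ n, (p n).u y = 0}

variable {p : ℕ → Cond}

theorem gen_zero {n y : ℕ} (h : (p n).u y = 0) : y ∈ gen p := ⟨n, h⟩

theorem gen_congr (hp : ∀ n, ∃ (t : ℕ → ℕ) (d : ℕ), ExtBy t d (p n) (p (n + 1)) ∧ 2 ≤ d) {n y y' : ℕ}
    (h : (p n).u y = (p n).u y') (hy : y ∈ gen p) : y' ∈ gen p := by
  obtain ⟨m, hm⟩ := hy
  rcases le_total n m with hnm | hnm
  · obtain ⟨t, d, e⟩ := ext_le hp hnm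
    refine ⟨m, ?_⟩
    rw [e.eq, ← h, ← e.eq, hm]
  · obtain ⟨t, d, e⟩ := ext_le hp hnm
    refine ⟨n, ?_⟩
    rw [← h, e.eq, hm, e.t0]

theorem gen_iff (hp : ∀ n, ∃ (t : ℕ → ℕ) (d : ℕ), ExtBy t d (p n) (p (n + 1)) ∧ 2 ≤ d) {n y y' : ℕ}
    (h : (p n).u y = (p n).u y') : y ∈ gen p ↔ y' ∈ gen p :=
  ⟨gen_congr hp h, gen_congr hp h.symm⟩

theorem gen_one (hp : ∀ n, ∃ (t : ℕ → ℕ) (d : ℕ), ExtBy t d (p n) (p (n + 1)) ∧ 2 ≤ d) {n y : ℕ}
    (h : (p n).u y = 1) : y ∉ gen p := by
  rintro ⟨m, hm⟩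
  rcases le_total n m with hnm | hnm
  · obtain ⟨t, d, e⟩ := ext_le hp hnm
    rw [e.eq, h, e.t1] at hm
    omega
  · obtain ⟨t, d, e⟩ := ext_le hp hnm
    rw [e.eq, hm, e.t0] at h
    omega

theorem rigid (hp : ∀ n, ∃ (t : ℕ → ℕ) (d : ℕ), ExtBy t d (p n) (p (n + 1)) ∧ 2 ≤ d)
    (hreq : ∀ G H : ℕ → ℕ, Computable G → Computable H → ∃ n, 
      ((∃ c : ℕ, ∀ y, (G ⁻¹' {y}).encard ≤ c) →
        ∃ k : ℕ, ∀ b, 2 ≤ b → {x | (p n).u (G x) = b}.encard = k) ∧
      ((∃ x, ((p n).u (G x) = 0 ∧ (p n).u (H x) = 1) ∨ ((p n).u (G x) = 1 ∧ (p n).u (H x) = 0)) ∨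
        ∀ x, 2 ≤ (p n).u (G x) → (p n).u (H x) = (p n).u (G x)))
    {G H : ℕ → ℕ} (hG : Computable G) (hH : Computable H) (h : ∀ x, G x ∈ gen p ↔ H x ∈ gen p) :
    ∃ n, ∀ m, n ≤ m → ∀ x, 2 ≤ (p m).u (G x) → (p m).u (H x) = (p m).u (G x) := by
  obtain ⟨n, -, hn⟩ := hreq G H hG hH
  have h2 : ∀ x, 2 ≤ (p n).u (G x) → (p n).u (H x) = (p n).u (G x) := by
    rcases hn with ⟨x, hx⟩ | hn
    · exfalso
      rcases hx with ⟨h1, h2⟩ | ⟨h1, h2⟩
      · exact gen_one hp h2 ((h x).1 (gen_zero h1))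
      · exact gen_one hp h1 ((h x).2 (gen_zero h2))
    · exact hn
  refine ⟨n, ?_⟩
  intro m hm x hx
  obtain ⟨t, d, e⟩ := ext_le hp hm
  rw [e.eq] at hx
  rw [e.eq, e.eq, h2 x (e.two_le hx)]

theorem exists_rep (hp : ∀ n, ∃ (t : ℕ → ℕ) (d : ℕ), ExtBy t d (p n) (p (n + 1)) ∧ 2 ≤ d)
    (hreq : ∀ G H : ℕ → ℕ, Computable G → Computable H → ∃ n, 
      ((∃ c : ℕ, ∀ y, (G ⁻¹' {y}).encard ≤ c) →
        ∃ k : ℕ, ∀ b, 2 ≤ b → {x | (p n).u (G x) = b}.encard = k) ∧
      ((∃ x, ((p n).u (G x) = 0 ∧ (p n).u (H x) = 1) ∨ ((p n).u (G x) = 1 ∧ (p n).u (H x) = 0)) ∨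
        ∀ x, 2 ≤ (p n).u (G x) → (p n).u (H x) = (p n).u (G x)))
    {B : Set ℕ} (hB : BFinEquiv B (gen p)) : ∃ (g : ℕ → ℕ) (n : ℕ), ∀ m, n ≤ m → ∃ k, Rep (gen p) (p m) B g k := by
  obtain ⟨⟨g, hg, hgc, hgm⟩, ⟨h, hh, ⟨c, hhc⟩, hhm⟩⟩ := hB
  obtain ⟨n1, hn1, -⟩ := hreq g g hg hg
  obtain ⟨k, hk⟩ := hn1 hgc
  have hcomp : ∀ x, x ∈ gen p ↔ g (h x) ∈ gen p := fun x => (hhm x).trans (hgm (h x))
  obtain ⟨n2, hn2⟩ := rigid hp hreq (G := fun x => x) (H := fun x => g (h x)) Computable.id (hg.comp hh) hcomp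
  obtain ⟨n3, hn3⟩ := rigid hp hreq (G := fun x => g (h x)) (H := fun x => x) (hg.comp hh) Computable.id
    (fun x => (hcomp x).symm)
  refine ⟨g, max n1 (max n2 n3), ?_⟩
  intro m hm
  have hm1 : n1 ≤ m := by omega
  have hm2 := hn2 m (by omega)
  have hm3 := hn3 m (by omega)
  obtain ⟨t, d, e⟩ := ext_le hp hm1
  have hfin : ∀ S : Set ℕ, S.Finite → (h ⁻¹' S).Finite := by
    intro S hS
    have h1 := fiber_le h c S hS (fun a _ => by
      have := hhc a
      simpa [Set.preimage] using this)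
    have h2 : (h ⁻¹' S).encard ≤ ((hS.toFinset.card * c : ℕ) : ℕ∞) := by
      have h3 : S.encard = hS.toFinset.card := by
        rw [← Set.encard_coe_eq_coe_finsetCard]; simp
      rw [h3] at h1
      push_cast
      exact h1
    exact Set.finite_of_encard_le_coe h2
  have i0 : {x | (p m).u (g x) = 0}.Infinite := by
    intro hf
    refine (p m).inf0 ((hfin _ hf).subset ?_)
    intro x hx
    simp only [Set.mem_ofPred_eq, Set.mem_preimage] at hx ⊢
    have h1 : ¬ (2 ≤ (p m).u (g (h x))) := by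
      intro h2
      have := hm3 x h2
      omega
    have h2 : g (h x) ∈ gen p := (hcomp x).1 (gen_zero hx)
    have h3 : (p m).u (g (h x)) ≠ 1 := fun h3 => gen_one hp h3 h2
    omega
  have i1 : {x | (p m).u (g x) = 1}.Infinite := by
    intro hf
    refine (p m).inf1 ((hfin _ hf).subset ?_)
    intro x hx
    simp only [Set.mem_ofPred_eq, Set.mem_preimage] at hx ⊢
    have h1 : ¬ (2 ≤ (p m).u (g (h x))) := by
      intro h2
      have := hm3 x h2
      omega
    have h2 : g (h x) ∉ gen p := fun h2 => gen_one hp hx ((hcomp x).2 h2)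
    have h3 : (p m).u (g (h x)) ≠ 0 := fun h3 => h2 (gen_zero h3)
    omega
  have hfib := e.mult g hk
  refine ⟨d * k, ?_⟩
  refine ⟨hg, hgm, i0, i1, ?_, hfib⟩
  · -- positivity
    rw [Nat.pos_iff_ne_zero]
    intro h0
    have h1 := (p m).fib 2 le_rfl
    have h2 : {x | (p m).u x = 2}.Nonempty := by
      rw [Set.nonempty_iff_ne_empty, Ne, ← Set.encard_eq_zero, h1]
      exact_mod_cast (p m).Npos.ne'
    obtain ⟨x, hx⟩ := h2
    simp only [Set.mem_ofPred_eq] at hx
    have h3 := hm2 x (by simp only [hx]; omega)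
    have h4 : h x ∈ {x | (p m).u (g x) = 2} := by
      simp only [Set.mem_ofPred_eq]
      rw [h3, hx]
    have h5 := hfib 2 le_rfl
    rw [h0, Nat.cast_zero, Set.encard_eq_zero] at h5
    rw [h5] at h4
    exact h4

theorem rep_ge (hp : ∀ n, ∃ (t : ℕ → ℕ) (d : ℕ), ExtBy t d (p n) (p (n + 1)) ∧ 2 ≤ d)
    (hreq : ∀ G H : ℕ → ℕ, Computable G → Computable H → ∃ n, 
      ((∃ c : ℕ, ∀ y, (G ⁻¹' {y}).encard ≤ c) →
        ∃ k : ℕ, ∀ b, 2 ≤ b → {x | (p n).u (G x) = b}.encard = k) ∧
      ((∃ x, ((p n).u (G x) = 0 ∧ (p n).u (H x) = 1) ∨ ((p n).u (G x) = 1 ∧ (p n).u (H x) = 0)) ∨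
        ∀ x, 2 ≤ (p n).u (G x) → (p n).u (H x) = (p n).u (G x)))
    {B C : Set ℕ} {g g' : ℕ → ℕ} {k k' n : ℕ} (hB : Rep (gen p) (p n) B g k)
    (hC : Rep (gen p) (p n) C g' k') (hle : OneLE B C) : k ≤ k' := by
  obtain ⟨f, hf, hfi, hfm⟩ := hle
  obtain ⟨n1, hn1⟩ := rigid hp hreq (G := g) (H := fun x => g' (f x)) hB.comp (hC.comp.comp hf) (by
    intro x
    rw [← hB.mem, hfm, hC.mem])
  have hm := hn1 (max n n1) (by omega)
  obtain ⟨t, d, e⟩ := ext_le hp (show n ≤ max n n1 by omega)
  have hB' := hB.ext e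
  have hC' := hC.ext e
  have h1 := hB'.fib 2 le_rfl
  have h2 := hC'.fib 2 le_rfl
  have h3 : {x | (p (max n n1)).u (g x) = 2}.encard ≤ {x | (p (max n n1)).u (g' x) = 2}.encard := by
    refine Set.encard_le_encard_of_injOn (f := f) ?_ hfi.injOn
    intro x hx
    simp only [Set.mem_ofPred_eq] at hx ⊢
    rw [hm x (by omega), hx]
  rw [h1, h2] at h3
  have h4 : d * k ≤ d * k' := by exact_mod_cast h3
  exact Nat.le_of_mul_le_mul_left h4 e.dpos

/-- every fibre size is realised -/
theorem exists_rep_of_pos (hp : ∀ n, ∃ (t : ℕ → ℕ) (d : ℕ), ExtBy t d (p n) (p (n + 1)) ∧ 2 ≤ d)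
    (n K : ℕ) (hK : 0 < K) : ∃ (D : Set ℕ) (g : ℕ → ℕ), BFinEquiv D (gen p) ∧ Rep (gen p) (p n) D g K := by
  have hNp := (p n).Npos
  obtain ⟨g, hg, hg1, hg2⟩ := compare (lab_comp K) (p n).comp K hK (by
    intro x
    rcases Nat.lt_or_ge (lab K x) 2 with hx | hx
    · have hx' : lab K x = 0 ∨ lab K x = 1 := by omega
      rcases hx' with hx' | hx'
      · rw [hx', (p n).inf0.encard_eq, ENat.mul_top (by exact_mod_cast hK.ne')]; exact le_top
      · rw [hx', (p n).inf1.encard_eq, ENat.mul_top (by exact_mod_cast hK.ne')]; exact le_top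
    · rw [lab_fib K hK _ hx, (p n).fib _ hx]
      exact_mod_cast Nat.le_mul_of_pos_right K hNp)
  obtain ⟨h, hh, hh1, hh2⟩ := compare (p n).comp (lab_comp K) (p n).N hNp (by
    intro x
    rcases Nat.lt_or_ge ((p n).u x) 2 with hx | hx
    · have hx' : (p n).u x = 0 ∨ (p n).u x = 1 := by omega
      rcases hx' with hx' | hx'
      · rw [hx', (lab_inf0 K).encard_eq, ENat.mul_top (by exact_mod_cast hNp.ne')]; exact le_top
      · rw [hx', (lab_inf1 K).encard_eq, ENat.mul_top (by exact_mod_cast hNp.ne')]; exact le_top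
    · rw [lab_fib K hK _ hx, (p n).fib _ hx]
      exact_mod_cast Nat.le_mul_of_pos_right _ hK)
  refine ⟨{x | g x ∈ gen p}, g, ⟨⟨g, hg, ⟨K, hg2⟩, fun x => Iff.rfl⟩, ⟨h, hh, ⟨_, hh2⟩, ?_⟩⟩, ?_⟩
  · intro y
    simp only [Set.mem_ofPred_eq]
    refine gen_iff hp (n := n) ?_
    rw [hg1, hh1]
  · refine ⟨hg, fun x => Iff.rfl, ?_, ?_, hK, ?_⟩
    · simpa only [hg1] using lab_inf0 K
    · simpa only [hg1] using lab_inf1 K
    · simpa only [hg1] using lab_fib K hK

/-- There is a set `A` such that the 1-degrees inside the bounded finite-one degree of `A` are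
linearly ordered by `≤₁`, densely ordered, and at least two in number. -/
theorem result : ∃ A : Set ℕ,
    -- any two members of the bounded finite-one degree of `A` are comparable under `≤₁`
    (∀ B C : Set ℕ, BFinEquiv B A → BFinEquiv C A → OneLE B C ∨ OneLE C B) ∧
    -- between any two members of distinct 1-degrees there is a third 1-degree
    (∀ B C : Set ℕ, BFinEquiv B A → BFinEquiv C A → OneLE B C → ¬ OneLE C B →
      ∃ D : Set ℕ, BFinEquiv D A ∧ (OneLE B D ∧ ¬ OneLE D B) ∧ (OneLE D C ∧ ¬ OneLE C D)) ∧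
    -- there are at least two 1-degrees
    (∃ B C : Set ℕ, BFinEquiv B A ∧ BFinEquiv C A ∧ ¬ (OneLE B C ∧ OneLE C B)) := by
  obtain ⟨p, hp, hreq⟩ := exists_seq
  refine ⟨gen p, ?_, ?_, ?_⟩
  · intro B C hB hC
    obtain ⟨g, n, h⟩ := exists_rep hp hreq hB
    obtain ⟨g', n', h'⟩ := exists_rep hp hreq hC
    obtain ⟨k, hk⟩ := h (max n n') (by omega)
    obtain ⟨k', hk'⟩ := h' (max n n') (by omega)
    rcases le_total k k' with hkk | hkk
    · exact Or.inl (hk.le hk' hkk (fun y y' e => gen_iff hp e))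
    · exact Or.inr (hk'.le hk hkk (fun y y' e => gen_iff hp e))
  · intro B C hB hC hBC hCB
    obtain ⟨g, n, h⟩ := exists_rep hp hreq hB
    obtain ⟨g', n', h'⟩ := exists_rep hp hreq hC
    obtain ⟨k, hk⟩ := h (max n n') (by omega)
    obtain ⟨k', hk'⟩ := h' (max n n') (by omega)
    have hlt : k < k' := by
      by_contra hcon
      exact hCB (hk'.le hk (by omega) (fun y y' e => gen_iff hp e))
    obtain ⟨t, d, e, hd⟩ := hp (max n n')
    have hk2 := hk.ext e
    have hk2' := hk'.ext e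
    obtain ⟨D, gD, hD, hDr⟩ := exists_rep_of_pos hp (max n n' + 1) (d * k + 1) (by omega)
    have hlt2 : d * k + 1 < d * k' := by nlinarith
    refine ⟨D, hD, ⟨?_, ?_⟩, ⟨?_, ?_⟩⟩
    · exact hk2.le hDr (by omega) (fun y y' e => gen_iff hp e)
    · intro hcon
      have := rep_ge hp hreq hDr hk2 hcon
      omega
    · exact hDr.le hk2' (by omega) (fun y y' e => gen_iff hp e)
    · intro hcon
      have := rep_ge hp hreq hk2' hDr hcon
      omega
  · obtain ⟨B, g, hB, hBr⟩ := exists_rep_of_pos hp 0 1 (by omega)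
    obtain ⟨C, g', hC, hCr⟩ := exists_rep_of_pos hp 0 2 (by omega)
    refine ⟨B, C, hB, hC, ?_⟩
    rintro ⟨-, h⟩
    have := rep_ge hp hreq hCr hBr h
    omega

end Pool.Agent.Results.MP_d57ee4_lc.DenseLinear
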